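import Pool.Agent.H20.RT.Stmts

/-!
Row WRB of the board rt: the base wrap.
-/

set_option autoImplicit false

namespace Pool.RT

theorem WRB_thm (h1 : RV1Stmt) (h2 : CADStmt) : WRBStmt := by
  obtain ⟨rlt, -, rsp, rz, rl⟩ := h1
  intro K P Q hP hQ hdvd
  obtain ⟨P', rfl⟩ := hdvd
  have hP' : P' < 10 ^ K := by
    rw [pow_succ] at hP
    omega
  refine ⟨hP, ?_, ?_⟩
  · rw [pow_succ]
    omega
  intro l F hF d hd _
  have e1 : revk (K + 1) Q = 10 * revk K Q := rz K Q hQ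
  have e2 : revk (K + 1) (10 * P') = revk K P' := rl K P'
  have hQ1 : Q < 10 ^ (K + 1) := by
    rw [pow_succ]
    omega
  have e3 : 2 * (K + 1) + l = (K + 1) + (l + (K + 1)) := by ring
  have e4 : 10 * P' * 10 ^ (K + 1 + l) + F * 10 ^ (K + 1) + Q =
      Q + 10 ^ (K + 1) * (F + 10 ^ l * (10 * P')) := by
    rw [pow_add 10 (K + 1) l]
    ring
  have e5 : revk ((K + 1) + (l + (K + 1))) (Q + 10 ^ (K + 1) * (F + 10 ^ l * (10 * P'))) =
      revk (K + 1) Q * 10 ^ (l + (K + 1)) + (revk l F * 10 ^ (K + 1) + revk (K + 1) (10 * P')) := by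
    rw [rsp _ _ _ _ hQ1, rsp _ _ _ _ hF]
  have e6 : S (2 * (K + 1) + l) (10 * P' * 10 ^ (K + 1 + l) + F * 10 ^ (K + 1) + Q) =
      (Q + revk K P') + 10 ^ (K + 1) * ((F + revk l F) + 10 ^ (l + 1) * (P' + revk K Q)) := by
    unfold S
    rw [e4, e3, e5, e1, e2]
    ring
  rw [e6]
  have hrP := rlt K P'
  have hrF := rlt l F
  have hA : Q + revk K P' < 10 ^ (K + 1) := by
    rw [pow_succ]
    omega
  have hB : F + revk l F < 10 ^ (l + 1) := by
    rw [pow_succ]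
    omega
  rw [h2 d _ _ _ hd hA, h2 d _ _ _ hd hB]
  have e7 : (10 * P' + revk (K + 1) Q) / 10 = P' + revk K Q := by
    rw [e1]
    omega
  change cnt d (Q + revk K P') + (cnt d (S l F) + cnt d (P' + revk K Q)) = cnt d (S l F) +
    (cnt d (Q + revk (K + 1) (10 * P')) + cnt d ((10 * P' + revk (K + 1) Q) / 10))
  rw [e2, e7]
  ring

end Pool.RT
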